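import Pool.Agent.BLP.StmtsA

/-!
# Squad BLP, row A_BDD: the energies are bounded
-/

namespace Pool.Agent.BLP.H77

open MeasureTheory ProbabilityTheory Filter Topology Finset

theorem a_bdd (pab : PabStmt) : BddStmt := by
  intro b hb m n s t hmn hst
  -- a path
  have hex : ∃ τ, Pa m s n t τ := by
    refine ⟨fun r => if r < n then s else t, ?_, ?_, ?_⟩
    · show (if m - 1 < n then s else t) = s
      exact if_pos (by omega)
    · show (if n < n then s else t) = t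
      exact if_neg (lt_irrefl n)
    · intro r _ _
      show (if r - 1 < n then s else t) ≤ (if r < n then s else t)
      split_ifs with h1 h2 h2
      · exact le_rfl
      · exact hst
      · omega
      · exact le_rfl
  -- a bound
  have hbd : ∀ r : ℤ, ∃ C : ℝ, ∀ x ∈ Set.Icc s t, |b r x| ≤ C := by
    intro r
    obtain ⟨C, hC⟩ := isCompact_Icc.exists_bound_of_continuousOn (hb r).continuousOn
    exact ⟨C, fun x hx => hC x hx⟩
  choose C hC using hbd
  have hup : ∀ τ, Pa m s n t τ → En b τ m n ≤ ∑ r ∈ Finset.Icc m n, (C r + C r) := by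
    intro τ hτ
    obtain ⟨-, h2, -⟩ := pab m n s t τ hτ hmn
    unfold En
    refine Finset.sum_le_sum fun r hr => ?_
    rw [Finset.mem_Icc] at hr
    have h3 := hC r (τ r) (h2 r (by omega) hr.2)
    have h4 := hC r (τ (r - 1)) (h2 (r - 1) (by omega) (by omega))
    have h5 := (abs_le.1 h3).2
    have h6 := (abs_le.1 h4).1
    linarith
  have hset : {E | ∃ τ : ℤ → ℝ, τ (m - 1) = s ∧ τ n = t ∧
      (∀ r, m ≤ r → r ≤ n → τ (r - 1) ≤ τ r) ∧ E = En b τ m n} =
      {E | ∃ τ, Pa m s n t τ ∧ E = En b τ m n} := by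
    ext E
    constructor
    · rintro ⟨τ, h1, h2, h3, h4⟩
      exact ⟨τ, ⟨h1, h2, h3⟩, h4⟩
    · rintro ⟨τ, ⟨h1, h2, h3⟩, h4⟩
      exact ⟨τ, h1, h2, h3, h4⟩
  refine ⟨hex, ?_, ?_⟩
  · intro τ hτ
    unfold L
    rw [hset]
    refine le_csSup ⟨∑ r ∈ Finset.Icc m n, (C r + C r), ?_⟩ ⟨τ, hτ, rfl⟩
    rintro E ⟨τ', hτ', rfl⟩
    exact hup τ' hτ'
  · intro C' hC'
    unfold L
    rw [hset]
    obtain ⟨τ, hτ⟩ := hex
    refine csSup_le ⟨_, τ, hτ, rfl⟩ ?_
    rintro E ⟨τ', hτ', rfl⟩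
    exact hC' τ' hτ'

end Pool.Agent.BLP.H77
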