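import Pool.Agent.BLP.StmtsM

/-!
# Squad BLP, row M_XMG: exponential moment of the contribution of one level
-/

namespace Pool.Agent.BLP.H77

open MeasureTheory ProbabilityTheory Filter Topology Finset

theorem exp_le (D u v w : ℝ) : Real.exp (u + v + w) ≤ (Real.exp (-D) * Real.exp (2 * u) +
    Real.exp D * ((Real.exp (4 * v) + Real.exp (4 * w)) / 2)) / 2 := by
  have h1 : 2 * (Real.exp (2 * v) * Real.exp (2 * w)) ≤ Real.exp (4 * v) + Real.exp (4 * w) := by
    have e1 : Real.exp (4 * v) = Real.exp (2 * v) ^ 2 := by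
      rw [← Real.exp_nat_mul]
      congr 1
      push_cast
      ring
    have e2 : Real.exp (4 * w) = Real.exp (2 * w) ^ 2 := by
      rw [← Real.exp_nat_mul]
      congr 1
      push_cast
      ring
    rw [e1, e2]
    nlinarith [sq_nonneg (Real.exp (2 * v) - Real.exp (2 * w))]
  have h2 : 2 * Real.exp (u + v + w) ≤ Real.exp (-D) * Real.exp (2 * u) +
      Real.exp D * (Real.exp (2 * v) * Real.exp (2 * w)) := by
    have e1 : Real.exp (-D) * Real.exp (2 * u) = Real.exp (-D / 2 + u) ^ 2 := by
      rw [← Real.exp_nat_mul, ← Real.exp_add]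
      congr 1
      push_cast
      ring
    have e2 : Real.exp D * (Real.exp (2 * v) * Real.exp (2 * w)) =
        Real.exp (D / 2 + v + w) ^ 2 := by
      rw [← Real.exp_nat_mul, ← Real.exp_add, ← Real.exp_add]
      congr 1
      push_cast
      ring
    have e3 : Real.exp (u + v + w) = Real.exp (-D / 2 + u) * Real.exp (D / 2 + v + w) := by
      rw [← Real.exp_add]
      congr 1
      ring
    rw [e1, e2, e3]
    nlinarith [sq_nonneg (Real.exp (-D / 2 + u) - Real.exp (D / 2 + v + w))]
  have h3 := mul_le_mul_of_nonneg_left h1 (Real.exp_pos D).le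
  linarith

theorem m_xmg (osm : OsmStmt) : XmgStmt := by
  intro X _ μ B hS
  obtain ⟨C, hC⟩ := osm X μ B hS 4 (by norm_num)
  refine ⟨max 1 ((1 + C) / 2), le_max_left _ _, fun r i i' hi => ?_⟩
  obtain ⟨m1, i1, b1⟩ := hC r i
  obtain ⟨m2, i2, b2⟩ := hC r i'
  have := hS.prob
  have hii : (i : ℝ) ≤ i' := by exact_mod_cast hi
  set D : ℝ := (i' : ℝ) - i with hD
  have hD0 : 0 ≤ D := sub_nonneg.2 hii
  have hmu : Measurable fun x => B x r i' - B x r i := (hS.mea r i').sub (hS.mea r i)
  have hlaw := hS.law r i i' hii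
  have hmX : Measurable fun x => Xc (B x) r i i' := (hmu.add m1).add m2
  have hiu : Integrable (fun x => Real.exp (2 * (B x r i' - B x r i))) μ := by
    have h1 : Integrable (fun y : ℝ => Real.exp (2 * y))
        (μ.map fun x => B x r i' - B x r i) := by
      rw [hlaw]
      exact integrable_exp_mul_gaussianReal 2
    exact h1.comp_measurable hmu
  have heu : ∫ x, Real.exp (2 * (B x r i' - B x r i)) ∂μ = Real.exp (2 * D) := by
    have h1 := mgf_gaussianReal hlaw 2
    unfold mgf at h1
    rw [h1]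
    congr 1
    rw [Real.coe_toNNReal _ hD0]
    ring
  have i12 : Integrable (fun x => (Real.exp (4 * Os (B x) r i) +
      Real.exp (4 * Os (B x) r i')) / 2) μ := (i1.add i2).div_const 2
  have hdom : Integrable (fun x => (Real.exp (-D) * Real.exp (2 * (B x r i' - B x r i)) +
      Real.exp D * ((Real.exp (4 * Os (B x) r i) + Real.exp (4 * Os (B x) r i')) / 2)) / 2) μ :=
    ((hiu.const_mul _).add (((i1.add i2).div_const 2).const_mul _)).div_const 2
  have hle : ∀ x, Real.exp (Xc (B x) r i i') ≤
      (Real.exp (-D) * Real.exp (2 * (B x r i' - B x r i)) +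
      Real.exp D * ((Real.exp (4 * Os (B x) r i) + Real.exp (4 * Os (B x) r i')) / 2)) / 2 :=
    fun x => exp_le D _ _ _
  have hint : Integrable (fun x => Real.exp (Xc (B x) r i i')) μ := by
    refine hdom.mono' (Real.measurable_exp.comp hmX).aestronglyMeasurable
      (Eventually.of_forall fun x => ?_)
    rw [Real.norm_eq_abs, abs_of_pos (Real.exp_pos _)]
    exact hle x
  refine ⟨hmX, hint, ?_⟩
  have h1 := integral_mono hint hdom hle
  have h2 : ∫ x, (Real.exp (-D) * Real.exp (2 * (B x r i' - B x r i)) +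
      Real.exp D * ((Real.exp (4 * Os (B x) r i) + Real.exp (4 * Os (B x) r i')) / 2)) / 2 ∂μ =
      (Real.exp (-D) * Real.exp (2 * D) + Real.exp D * ((∫ x, Real.exp (4 * Os (B x) r i) ∂μ +
        ∫ x, Real.exp (4 * Os (B x) r i') ∂μ) / 2)) / 2 := by
    rw [integral_div, integral_add (hiu.const_mul _) (i12.const_mul _),
      integral_const_mul, integral_const_mul, integral_div, integral_add i1 i2, heu]
  have h3 : Real.exp (-D) * Real.exp (2 * D) = Real.exp D := by
    rw [← Real.exp_add]
    congr 1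
    ring
  rw [h2, h3] at h1
  have h4 : (∫ x, Real.exp (4 * Os (B x) r i) ∂μ + ∫ x, Real.exp (4 * Os (B x) r i') ∂μ) / 2 ≤ C := by
    linarith
  have h5 := mul_le_mul_of_nonneg_left h4 (Real.exp_pos D).le
  have h6 := mul_le_mul_of_nonneg_right (le_max_right 1 ((1 + C) / 2)) (Real.exp_pos D).le
  linarith

end Pool.Agent.BLP.H77
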