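import Pool.Agent.BLP.StmtsF

/-!
# Squad BLP, row F_FIE: the inequalities pass to the limit
-/

namespace Pool.Agent.BLP.H77

open MeasureTheory ProbabilityTheory Filter Topology Finset

theorem f_fie : FieStmt := by
  intro inc qua b Φ φ hb hφ hlim
  have hN : Tendsto φ atTop atTop := hφ.tendsto_atTop
  have hZ : ∀ m : ℤ, ∀ᶠ j in atTop, m ≤ (φ j : ℤ) := fun m =>
    (tendsto_natCast_atTop_atTop.comp hN).eventually_ge_atTop m
  have hR : ∀ q : ℚ, 0 < q → ∀ x : ℝ, ∀ᶠ j in atTop, x ≤ (φ j : ℝ) * q := by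
    intro q hq x
    have hq' : (0 : ℝ) < q := by exact_mod_cast hq
    exact (Tendsto.atTop_mul_const hq'
      ((tendsto_natCast_atTop_atTop (R := ℝ)).comp hN)).eventually_ge_atTop x
  have hle : ∀ q q' : ℚ, q < q' → ∀ j, (φ j : ℝ) * q ≤ (φ j : ℝ) * q' := by
    intro q q' hq j
    have hq' : (q : ℝ) ≤ q' := by exact_mod_cast hq.le
    exact mul_le_mul_of_nonneg_left hq' (Nat.cast_nonneg _)
  refine ⟨?_, ?_, ?_⟩
  · intro q hq m s t hst
    have hst' : (s : ℝ) ≤ t := by exact_mod_cast hst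
    refine ge_of_tendsto ((hlim q hq m t).sub (hlim q hq m s)) ?_
    filter_upwards [hZ m, hR q hq t] with j h1 h2
    have h3 := (inc b hb m (φ j) h1).1 s t ((φ j : ℝ) * q) hst' h2
    linarith
  · intro q q' hq hqq m s t hst
    have hst' : (s : ℝ) ≤ t := by exact_mod_cast hst
    have hq' := hq.trans hqq
    refine le_of_tendsto_of_tendsto ((hlim q' hq' m t).sub (hlim q' hq' m s))
      ((hlim q hq m t).sub (hlim q hq m s)) ?_
    filter_upwards [hZ m, hR q hq t] with j h1 h2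
    have h3 := qua b hb m m (φ j) (φ j) s t ((φ j : ℝ) * q) ((φ j : ℝ) * q') le_rfl h1 le_rfl
      hst' h2 (hle q q' hqq j)
    linarith
  · intro q q' hq hqq m s
    have hq' := hq.trans hqq
    refine le_of_tendsto_of_tendsto ((hlim q hq (m + 1) s).sub (hlim q hq m s))
      ((hlim q' hq' (m + 1) s).sub (hlim q' hq' m s)) ?_
    filter_upwards [hZ (m + 1), hR q hq s] with j h1 h2
    have h3 := qua b hb m (m + 1) (φ j) (φ j) s s ((φ j : ℝ) * q) ((φ j : ℝ) * q') (by omega) h1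
      le_rfl le_rfl h2 (hle q q' hqq j)
    linarith

end Pool.Agent.BLP.H77
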